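import Pool.Agent.MP_fcd29e_an.H31.Spec3

/-!
Approximate identity, telescoping sum, derivatives on the kernel.
-/

set_option autoImplicit false

open MeasureTheory Complex Set Filter Topology Metric Pool.Agent.MP_fcd29e_an.H81
  Pool.Agent.MP_fcd29e_an.H31
open scoped ContDiff ComplexConjugate ENNReal NNReal FourierTransform SchwartzMap

namespace Pool.Agent.MP_fcd29e_an.H47

variable {N : ℕ}

theorem tst_int {k : E N → ℂ} (hk : Tst k) : Integrable k :=
  hk.1.continuous.integrable_of_hasCompactSupport hk.2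

theorem int_mul {k w : E N → ℂ} (hk : Continuous k) (hw : Tst w) (x : E N) :
    Integrable fun y => k (x - y) * w y :=
  ((hk.comp (continuous_const.sub continuous_id)).mul
    hw.1.continuous).integrable_of_hasCompactSupport hw.2.mul_left

theorem fd_cont {k : E N → ℂ} (hk : Tst k) (v : E N) : Continuous fun y => fderiv ℝ k y v :=
  (hk.1.continuous_fderiv (by simp)).clm_apply continuous_const

theorem fd_sc {k : E N → ℂ} (hk : Tst k) {t : ℝ} (ht : 0 < t) (y v : E N) :
    (t : ℂ) * fderiv ℝ (Sc t k) y v = fderiv ℝ k (t⁻¹ • y) v / (t ^ (2 * N) : ℝ) := by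
  have h1 : HasFDerivAt (fun y : E N => t⁻¹ • y) (t⁻¹ • ContinuousLinearMap.id ℝ (E N)) y :=
    (hasFDerivAt_id y).const_smul t⁻¹
  have h2 := ((hk.1.differentiable (by simp)) (t⁻¹ • y)).hasFDerivAt.comp y h1
  have h3 := h2.mul_const (((t ^ (2 * N) : ℝ) : ℂ)⁻¹)
  have e : Sc t k = fun y => (k ∘ fun y : E N => t⁻¹ • y) y * (((t ^ (2 * N) : ℝ) : ℂ)⁻¹) := by
    funext y
    simp only [Sc, Function.comp, div_eq_mul_inv]
  rw [e, h3.fderiv]
  have ht' : (t : ℂ) ≠ 0 := ofReal_ne_zero.2 ht.ne'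
  simp only [_root_.smul_apply, ContinuousLinearMap.comp_apply,
    ContinuousLinearMap.id_apply, map_smul, smul_eq_mul, real_smul, ofReal_inv]
  field_simp

theorem sc_dz {k : E N → ℂ} (hk : Tst k) {t : ℝ} (ht : 0 < t) (j : Fin N) (y : E N) :
    Sc t (dz j k) y = t * dz j (Sc t k) y ∧ Sc t (dzb j k) y = t * dzb j (Sc t k) y := by
  have h1 := fd_sc hk ht y (ee j)
  have h2 := fd_sc hk ht y (I • ee j)
  constructor
  · simp only [dz]
    rw [Sc]
    simp only [dz]
    linear_combination (-1 / 2 : ℂ) * h1 + (I / 2) * h2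
  · simp only [dzb]
    rw [Sc]
    simp only [dzb]
    linear_combination (-1 / 2 : ℂ) * h1 - (I / 2) * h2

theorem cv_dz (L : Lv2) {k w : E N → ℂ} (hk : Tst k) (hw : Tst w) (j : Fin N) (x : E N) :
    dz j (Cv k w) x = Cv (dz j k) w x ∧ dzb j (Cv k w) x = Cv (dzb j k) w x := by
  have h := ((L.yg N).2.1 k w hk (tst_int hw).locallyIntegrable).2 x
  have i1 := int_mul (fd_cont hk (ee j)) hw x
  have i2 := (int_mul (fd_cont hk (I • ee j)) hw x).const_mul I
  have e : Cv k w = fun x => ∫ y, k (x - y) * w y := rfl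
  constructor
  · rw [dz, e, h, h, ← integral_const_mul, ← integral_sub i1 i2, ← integral_div, Cv]
    congr 1
    funext y
    simp only [dz]
    ring
  · rw [dzb, e, h, h, ← integral_const_mul, ← integral_add i1 i2, ← integral_div, Cv]
    congr 1
    funext y
    simp only [dzb]
    ring

theorem cv_sc (L : Lv2) {k w : E N → ℂ} (hk : Tst k) (hw : Tst w) {t : ℝ} (ht : 0 < t)
    (j : Fin N) (x : E N) :
    Cv (Sc t (dz j k)) w x = t * dz j (Cv (Sc t k) w) x ∧
      Cv (Sc t (dzb j k)) w x = t * dzb j (Cv (Sc t k) w) x := by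
  have hs : Tst (Sc t k) := (L.fa N k hk).2.2.2.2.2.2.1 t ht
  rw [(cv_dz L hs hw j x).1, (cv_dz L hs hw j x).2]
  constructor
  · rw [Cv, Cv, ← integral_const_mul]
    congr 1
    funext y
    rw [(sc_dz hk ht j _).1, mul_assoc]
  · rw [Cv, Cv, ← integral_const_mul]
    congr 1
    funext y
    rw [(sc_dz hk ht j _).2, mul_assoc]

theorem dy_pos (j : ℕ) : 0 < dy j := by
  unfold dy
  positivity

theorem dy_le (j : ℕ) : dy j ≤ 1 := inv_le_one_of_one_le₀ (one_le_pow₀ one_le_two)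

theorem dy_lim : Tendsto dy atTop (𝓝 0) :=
  tendsto_inv_atTop_zero.comp (tendsto_pow_atTop_atTop_of_one_lt one_lt_two)

theorem sc_half (k : E N → ℂ) (i : ℕ) (y : E N) :
    Sc (dy (i + 1)) k y = Sc (dy i) (Sc (1 / 2) k) y := by
  have e : dy (i + 1) = dy i * (1 / 2) := by
    unfold dy
    rw [pow_succ, mul_inv, one_div]
  rw [e]
  simp only [Sc, smul_smul]
  rw [mul_inv, mul_comm (dy i)⁻¹, mul_pow, ofReal_mul, div_div, mul_comm ((_ : ℝ) : ℂ)]

theorem step (L : Lv2) {Φ : E N → ℂ} (hΦ : Tst Φ) (k k' : Fin N → E N → ℂ)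
    (hk : ∀ j, Tst (k j) ∧ Tst (k' j))
    (h : ∀ y, Sc (1 / 2) Φ y - Φ y = ∑ j, (dz j (k j) y + dzb j (k' j) y)) {w : E N → ℂ}
    (hw : Tst w) (i : ℕ) (x : E N) :
    Cv (Sc (dy (i + 1)) Φ) w x = Cv (Sc (dy i) Φ) w x + (dy i : ℂ) * ∑ j,
      (Cv (Sc (dy i) (k j)) (dz j w) x + Cv (Sc (dy i) (k' j)) (dzb j w) x) := by
  have ht := dy_pos i
  have sc : ∀ {f : E N → ℂ}, Tst f → Tst (Sc (dy i) f) := fun hf =>
    (L.fa N _ hf).2.2.2.2.2.2.1 _ ht
  have t1 : ∀ j, Tst (Sc (dy i) (dz j (k j))) := fun j =>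
    sc ((L.fa N _ (hk j).1).2.2.2.2.2.1 j).1
  have t2 : ∀ j, Tst (Sc (dy i) (dzb j (k' j))) := fun j =>
    sc ((L.fa N _ (hk j).2).2.2.2.2.2.1 j).2
  have e : ∀ y, Sc (dy (i + 1)) Φ y = Sc (dy i) Φ y +
      ∑ j, (Sc (dy i) (dz j (k j)) y + Sc (dy i) (dzb j (k' j)) y) := fun y => by
    rw [sc_half]
    have := h ((dy i)⁻¹ • y)
    rw [Sc, sub_eq_iff_eq_add'.1 this, add_div, Finset.sum_div]
    simp only [add_div]
    rfl
  have c : ∀ j, (dy i : ℂ) * (Cv (Sc (dy i) (k j)) (dz j w) x +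
      Cv (Sc (dy i) (k' j)) (dzb j w) x) = ∫ y, (Sc (dy i) (dz j (k j)) (x - y) * w y +
        Sc (dy i) (dzb j (k' j)) (x - y) * w y) := fun j => by
    have a1 := ((L.fb N _ (tst_int (sc (hk j).1))).2.2.2.2.2 (sc (hk j).1).2 w hw).2.2 j
    have a2 := ((L.fb N _ (tst_int (sc (hk j).2))).2.2.2.2.2 (sc (hk j).2).2 w hw).2.2 j
    rw [integral_add (int_mul (t1 j).1.continuous hw x) (int_mul (t2 j).1.continuous hw x),
      ← a1.1, ← a2.2, mul_add, ← (cv_sc L (hk j).1 hw ht j x).1,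
      ← (cv_sc L (hk j).2 hw ht j x).2]
    rfl
  have ij : ∀ j ∈ Finset.univ, Integrable fun y => Sc (dy i) (dz j (k j)) (x - y) * w y +
      Sc (dy i) (dzb j (k' j)) (x - y) * w y := fun j _ =>
    (int_mul (t1 j).1.continuous hw x).add (int_mul (t2 j).1.continuous hw x)
  rw [Finset.mul_sum, Finset.sum_congr rfl fun j _ => c j, ← integral_finsetSum _ ij, Cv, Cv,
    ← integral_add (int_mul (sc hΦ).1.continuous hw x) (integrable_finsetSum _ ij)]
  congr 1
  funext y
  rw [e, add_mul, Finset.sum_mul]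
  simp only [add_mul]

theorem cv_form (L : Lv2) {Φ f : E N → ℂ} (hΦ : Tst Φ) (hf : Tst f) {t : ℝ} (ht : 0 < t)
    (x : E N) : Cv (Sc t Φ) f x = ∫ z, Φ z * f (x - t • z) := by
  have hi : Integrable fun z => Φ z * f (x - t • z) :=
    (hΦ.1.continuous.mul (hf.1.continuous.comp (continuous_const.sub
      (continuous_const_smul t)))).integrable_of_hasCompactSupport hΦ.2.mul_right
  rw [← ((L.fb N _ hi).2.2.2.1 t ht).2.2.1, Cv,
    ← integral_sub_left_eq_self (fun y => Sc t Φ (x - y) * f y) volume x]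
  congr 1
  funext y
  simp only [Sc, sub_sub_cancel, smul_smul, mul_inv_cancel₀ ht.ne', one_smul]
  ring

theorem approx (L : Lv2) {Φ : E N → ℂ} (hΦ : Tst Φ) (h1 : ∫ y, Φ y = 1) {g f : E N → ℂ}
    (hg : MemLp g 2 volume) (hf : Tst f) :
    Tendsto (fun J => ∫ x, g x * Cv (Sc (dy J) Φ) f x) atTop (𝓝 (∫ x, g x * f x)) := by
  obtain ⟨M, hM⟩ := hf.1.continuous.bounded_above_of_compact_support hf.2
  obtain ⟨R₁, hR₁⟩ := hΦ.2.isCompact.isBounded.subset_closedBall 0
  obtain ⟨R₂, hR₂⟩ := hf.2.isCompact.isBounded.subset_closedBall 0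
  have iΦ := (tst_int hΦ).norm.mul_const M
  have bd : ∀ (x : E N) (t : ℝ) (z : E N), ‖Φ z * f (x - t • z)‖ ≤ ‖Φ z‖ * M := fun x t z => by
    rw [norm_mul]
    exact mul_le_mul_of_nonneg_left (hM _) (norm_nonneg _)
  have gi : IntegrableOn g (closedBall 0 (R₁ + R₂)) :=
    (hg.locallyIntegrable one_le_two).integrableOn_isCompact (isCompact_closedBall _ _)
  refine tendsto_integral_of_dominated_convergence
    ((closedBall 0 (R₁ + R₂)).indicator fun x => ‖g x‖ * ∫ z, ‖Φ z‖ * M) (fun J => ?_) ?_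
    (fun J => ae_of_all _ fun x => ?_) (ae_of_all _ fun x => ?_)
  · refine hg.1.mul (Continuous.aestronglyMeasurable ?_)
    exact ((L.yg N).2.1 _ f ((L.fa N Φ hΦ).2.2.2.2.2.2.1 _ (dy_pos J))
      (tst_int hf).locallyIntegrable).1.continuous
  · exact (integrable_indicator_iff measurableSet_closedBall).2 (gi.norm.mul_const _)
  · rw [cv_form L hΦ hf (dy_pos J)]
    by_cases hx : x ∈ closedBall (0 : E N) (R₁ + R₂)
    · rw [indicator_of_mem hx, norm_mul]
      exact mul_le_mul_of_nonneg_left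
        (norm_integral_le_of_norm_le iΦ (ae_of_all _ (bd x _))) (norm_nonneg _)
    · have z0 : ∀ z, Φ z * f (x - dy J • z) = 0 := fun z => by
        by_contra hz
        have a1 := mem_closedBall_zero_iff.1 (hR₁ (subset_tsupport _ (left_ne_zero_of_mul hz)))
        have a2 := mem_closedBall_zero_iff.1 (hR₂ (subset_tsupport _ (right_ne_zero_of_mul hz)))
        have a3 : ‖dy J • z‖ ≤ ‖z‖ := by
          rw [norm_smul, Real.norm_of_nonneg (dy_pos J).le]
          exact mul_le_of_le_one_left (norm_nonneg _) (dy_le J)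
        have a4 := norm_add_le (x - dy J • z) (dy J • z)
        rw [sub_add_cancel] at a4
        exact hx (mem_closedBall_zero_iff.2 (by linarith))
      simp [indicator_of_notMem hx, z0]
  · refine Tendsto.const_mul _ ?_
    have e : f x = ∫ z, Φ z * f x := by rw [integral_mul_const, h1, one_mul]
    rw [e]
    simp only [fun J => cv_form L hΦ hf (dy_pos J) x]
    refine tendsto_integral_of_dominated_convergence (fun z => ‖Φ z‖ * M) (fun J => ?_) iΦ
      (fun J => ae_of_all _ (bd x _)) (ae_of_all _ fun z => Tendsto.const_mul _ ?_)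
    · exact (hΦ.1.continuous.mul (hf.1.continuous.comp (continuous_const.sub
        (continuous_const_smul _)))).aestronglyMeasurable
    · refine (hf.1.continuous.tendsto x).comp ?_
      simpa using (dy_lim.smul_const z).const_sub x

theorem ht (L : Lv2) : StmtHT := by
  intro N Φ hΦ
  refine ⟨fun h1 g f hg hf => approx L hΦ h1 hg hf, fun k k' hk h w hw J x => ?_,
    fun t ht h hh l x => (cv_sc L hΦ hh ht l x).2.symm⟩
  induction J with
  | zero =>
    have e : Sc (dy 0) Φ = Φ := by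
      funext y
      simp [Sc, dy]
    rw [e, Finset.sum_range_zero, add_zero]
  | succ J ih => rw [step L hΦ k k' hk h hw J x, ih, Finset.sum_range_succ, add_assoc]

end Pool.Agent.MP_fcd29e_an.H47
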